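import Pool.Agent.ANO2.Prod.Local
import Pool.Agent.ANO2.Cone.SectB
import Pool.Agent.ANO2.Idx2.Final
import Pool.Agent.ANO2.Dim.Final

/-!
# ANO phase 2: the final assembly

`MainStatement` from the statement for pseudo-Anosov factors and the dimension argument, which
excludes the factors which are isotopic to the identity.
-/

set_option autoImplicit false

open scoped UpperHalfPlane MatrixGroups
open Set Filter Topology

namespace Pool.Agent.ANO2

open Pool.Agent.ANO

/-- There are no factors which are isotopic to the identity. -/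
def DimStatement : Prop :=
  ∀ (r k : ℕ) (S : Fin r → SurfaceMap) (I₀ : Set (Fin r)),
    (∀ i, i ∈ I₀ → IsInner (S i)) → (∀ i, i ∉ I₀ → ∃ q l, IsPA (S i) q l) →
      ∀ A : Matrix (Fin k) (Fin k) ℤ, IsHyperbolicMatrix A →
        ∀ τ : (Fin r → ℍ) → (Fin k → ℝ), IsTwist (surf S) τ →
          ∀ F : X r k ≃ₜ X r k, IsAnosovLift (surf S) F → ∀ n : ℕ, 0 < n →
            Homotopic (surf S) (model S A τ) (F ^ n : X r k ≃ₜ X r k) → I₀ = ∅

/-- The statement for pseudo-Anosov factors. -/
theorem paStatement' : PAStatement :=
  paStatement Cone.paGeoStatement Idx2.index Idx2.regular Idx2.count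

/-- The statement of phase 2. -/
theorem mainStatement_of (hdim : DimStatement) : MainStatement := by
  intro r k hr S hS A hA τ hτ F hF n hn hh
  have h := hdim r k S {i | ¬ ∃ q l, IsPA (S i) q l}
    (fun i hi => (hS i).resolve_left hi) (fun i hi => not_not.mp hi) A hA τ hτ F hF n hn hh
  refine paStatement' r k hr S (fun i => ?_) A hA τ hτ F hF n hn hh
  by_contra hi
  have : i ∈ ({i | ¬ ∃ q l, IsPA (S i) q l} : Set (Fin r)) := hi
  rw [h] at this
  exact this

theorem mainStatement : MainStatement :=
  mainStatement_of Dim.dimStatement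

end Pool.Agent.ANO2
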